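import Pool.Agent.V7H60.CC.KeyP
import Pool.Agent.N753.DR.Stm4
import Pool.Agent.N753.DR.Crv
import Pool.Agent.N415.DR.VK
import Pool.Agent.W803.AC.SUMN

/-! From a curve to its covers. -/

set_option autoImplicit false

namespace Pool.Agent.V7H60.CC

open NumberField IsDedekindDomain Module Polynomial Height
open Pool.Agent.N753.DR
open Pool.Agent.W223.AC (lamF lamI mS)
open Pool.Agent.W223.CV (cc)
open scoped LinearAlgebra.Projectivization

/-- roots of a fixed polynomial -/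
theorem root_ht (G : ℚ[X]) (hG : G ≠ 0) : ∃ C : ℝ, 0 ≤ C ∧
    ∀ (L : Type) [Field L] [NumberField L] (x : L), aeval x G = 0 →
      logHeight₁ x ≤ finrank ℚ L * C := by
  classical
  have key : ∀ p : ℚ[X], ∃ C : ℝ, 0 ≤ C ∧ (Irreducible p →
    ∀ (L : Type) [Field L] [NumberField L] (x : L), aeval x p = 0 →
      logHeight₁ x ≤ finrank ℚ L * C) := by
    intro p
    by_cases hp : Irreducible p
    · obtain ⟨C, hC, h⟩ := Pool.Agent.N415.DRVK.conj_ht (K := ℚ) p hp
      exact ⟨C, hC, fun _ L _ _ x hx => h L x hx⟩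
    · exact ⟨0, le_rfl, fun h => absurd h hp⟩
  choose c hc0 hc using key
  set T := (UniqueFactorizationMonoid.normalizedFactors G).toFinset with hT
  refine ⟨∑ p ∈ T, c p, Finset.sum_nonneg fun p _ => hc0 p, ?_⟩
  intro L _ _ x hx
  have hint : IsIntegral ℚ x := IsIntegral.of_finite ℚ x
  have hmem : minpoly ℚ x ∈ T := by
    rw [hT, Multiset.mem_toFinset, Polynomial.mem_normalizedFactors_iff hG]
    exact ⟨minpoly.irreducible hint, minpoly.monic hint, minpoly.dvd ℚ x hx⟩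
  refine (hc (minpoly ℚ x) (minpoly.irreducible hint) L x (minpoly.aeval ℚ x)).trans ?_
  refine mul_le_mul_of_nonneg_left ?_ (Nat.cast_nonneg _)
  exact Finset.single_le_sum (fun p (_ : p ∈ T) => hc0 p) hmem

section

variable {K A : Type} [Field K] [NumberField K] [CommRing A] [IsDomain A] [Algebra K A]
  [Algebra K[X] A] [IsScalarTower K K[X] A] [Module.Finite K[X] A] [FaithfulSMul K[X] A]

/-- the truncated part of the property of the exceptional set -/
def Trunc {m : ℕ} (f : Fin m → A) (E : Set (ℙ K (Fin m → K))) : Prop :=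
  ∀ (q : ℕ) (u : Fin q → ℕ) (g : ∀ j, Fin (u j) → A),
      (∀ j, (Ideal.span (Set.range (g j))).IsMaximal) →
      (∀ i j, i ≠ j → Ideal.span (Set.range (g i)) ≠ Ideal.span (Set.range (g j))) →
      (∀ j, ∃ (L : Type) (_ : Field L) (_ : NumberField L) (_ : Algebra K L) (ψ : A →ₐ[K] L),
        Function.Surjective ψ ∧ RingHom.ker ψ = Ideal.span (Set.range (g j)) ∧
          Wide K (fun i => ψ (f i))) →
      ∀ (S : Finset ℕ) (κ : ℝ), 0 < κ → ∃ C : ℝ,
        ∀ (M : Type) [Field M] [NumberField M] [Algebra K M] (φ : A →ₐ[K] M)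
          (P : ℙ K (Fin m → K)), P ∉ E → Function.Surjective φ →
          RingHom.ker φ = Ideal.span {mem f P.rep} →
          (∀ j, RingHom.ker φ ≠ Ideal.span (Set.range (g j))) →
          ∃ W : Finset (HeightOneSpectrum (𝓞 M)), (∀ w ∈ W, ∃ j, NearC S (g j) φ w) ∧
            (∑ j, (finrank K (A ⧸ Ideal.span (Set.range (g j))) : ℝ) - κ) *
              Height.logHeight P.rep ≤ ∑ w ∈ W, lN w + C

/-- the bound of the height of a point by the height of the member -/
def Hgt {m : ℕ} (f : Fin m → A) : Prop :=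
  ∃ C : ℝ, ∀ (M : Type) [Field M] [NumberField M] [Algebra K M] (φ : A →ₐ[K] M)
        (P : ℙ K (Fin m → K)), Function.Surjective φ →
        RingHom.ker φ = Ideal.span {mem f P.rep} →
        Height.logHeight₁ (φ (algebraMap K[X] A X)) ≤
          finrank K[X] A * Height.logHeight P.rep + C

omit [NumberField K] [Algebra K A] [IsScalarTower K K[X] A] in
theorem rank_pos : (0 : ℝ) < finrank K[X] A := by
  have : Module.IsTorsionFree K[X] A := by infer_instance
  exact_mod_cast finrank_pos (R := K[X]) (M := A)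

/-- the truncated part in terms of the height of the coordinate -/
theorem base {m : ℕ} {f : Fin m → A} {E : Set (ℙ K (Fin m → K))} (hT : Trunc f E)
    (hH : Hgt (K := K) f) (q : ℕ) (u : Fin q → ℕ) (g : ∀ j, Fin (u j) → A)
    (hg : ∀ j, (Ideal.span (Set.range (g j))).IsMaximal)
    (hgg : ∀ i j, i ≠ j → Ideal.span (Set.range (g i)) ≠ Ideal.span (Set.range (g j)))
    (hw : ∀ j, ∃ (L : Type) (_ : Field L) (_ : NumberField L) (_ : Algebra K L) (ψ : A →ₐ[K] L),
        Function.Surjective ψ ∧ RingHom.ker ψ = Ideal.span (Set.range (g j)) ∧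
          Wide K (fun i => ψ (f i))) (S : Finset ℕ) (ε : ℝ) (hε : 0 < ε) :
    ∃ C : ℝ, 0 ≤ C ∧ ∀ (M : Type) [Field M] [NumberField M] [Algebra K M] (φ : A →ₐ[K] M)
          (P : ℙ K (Fin m → K)), P ∉ E → Function.Surjective φ →
          RingHom.ker φ = Ideal.span {mem f P.rep} →
          (∀ j, RingHom.ker φ ≠ Ideal.span (Set.range (g j))) →
          ∃ W : Finset (HeightOneSpectrum (𝓞 M)), (∀ w ∈ W, ∃ j, NearC S (g j) φ w) ∧
            ((∑ j, (finrank K (A ⧸ Ideal.span (Set.range (g j))) : ℝ)) / finrank K[X] A - ε) *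
              logHeight₁ (φ (algebraMap K[X] A X)) ≤ ∑ w ∈ W, lN w + C := by
  have hn := rank_pos (K := K) (A := A)
  set n : ℝ := (finrank K[X] A : ℝ) with hnd
  set D : ℝ := ∑ j, (finrank K (A ⧸ Ideal.span (Set.range (g j))) : ℝ) with hD
  have hD0 : 0 ≤ D := Finset.sum_nonneg fun j _ => Nat.cast_nonneg _
  rcases le_or_gt (D / n) ε with h | h
  · refine ⟨0, le_rfl, fun M _ _ _ φ P _ _ _ _ => ⟨∅, fun w hw => absurd hw (Finset.notMem_empty w),
      ?_⟩⟩
    rw [Finset.sum_empty, add_zero]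
    exact mul_nonpos_of_nonpos_of_nonneg (by linarith) (zero_le_logHeight₁ _)
  · obtain ⟨C₁, h1⟩ := hT q u g hg hgg hw S (n * ε) (by positivity)
    obtain ⟨C₂, h2⟩ := hH
    refine ⟨|C₁| + (D / n - ε) * |C₂|, by
      have : 0 ≤ D / n - ε := by linarith
      positivity, ?_⟩
    intro M _ _ _ φ P hPE hφ hker hne
    obtain ⟨W, hW, h3⟩ := h1 M φ P hPE hφ hker hne
    refine ⟨W, hW, ?_⟩
    have h4 := h2 M φ P hφ hker
    have h5 : 0 ≤ D / n - ε := by linarith
    have h6 := mul_le_mul_of_nonneg_left h4 h5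
    have h7 : (D / n - ε) * (n * logHeight P.rep + C₂) =
        (D - n * ε) * logHeight P.rep + (D / n - ε) * C₂ := by
      field_simp
    rw [h7] at h6
    have h8 := mul_le_mul_of_nonneg_left (le_abs_self C₂) h5
    have h9 := le_abs_self C₁
    linarith

variable {A' : Type} [CommRing A'] [Algebra K A'] [Algebra K[X] A'] [IsScalarTower K K[X] A']

omit [NumberField K] [IsDomain A] [IsScalarTower K K[X] A] [Module.Finite K[X] A]
  [FaithfulSMul K[X] A] [IsScalarTower K K[X] A'] in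
/-- primes above -/
theorem up (π : A →ₐ[K[X]] A') {q : ℕ} {u : Fin q → ℕ} (g : ∀ j, Fin (u j) → A) (S : Finset ℕ)
    {M L : Type} [Field M] [NumberField M] [Field L] [NumberField L] [Algebra K M] [Algebra K L]
    [Algebra M L] (φ : A →ₐ[K] M) (P : A' →ₐ[K] L)
    (hcomp : ∀ a, P (π a) = algebraMap M L (φ a)) (hne : ∀ j, ∃ l, φ (g j l) ≠ 0)
    (V : Finset (HeightOneSpectrum (𝓞 M))) (hV : ∀ v ∈ V, ∃ j, NearC S (g j) φ v) :
    ∃ W : Finset (HeightOneSpectrum (𝓞 L)),
      (∀ w ∈ W, (∀ p ∈ S, p ≠ 0 → (p : 𝓞 L) ∉ w.asIdeal) ∧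
        w.valuation L (P (algebraMap K[X] A' X)) ≤ 1 ∧
        ∃ j, ∀ l, w.valuation L (P (π (g j l))) < 1) ∧
      (finrank M L : ℝ) * (Real.log |(discr M : ℝ)| + ∑ v ∈ V, lN v) ≤
        Real.log |(discr L : ℝ)| + ∑ w ∈ W, lN w := by
  classical
  have hX : P (algebraMap K[X] A' X) = algebraMap M L (φ (algebraMap K[X] A X)) := by
    rw [← hcomp, AlgHom.commutes]
  have hfin : {w : HeightOneSpectrum (𝓞 L) | ∃ j, ∀ l, w.valuation L (P (π (g j l))) < 1}.Finite := by
    have h1 : ∀ j, {w : HeightOneSpectrum (𝓞 L) | ∀ l, w.valuation L (P (π (g j l))) < 1}.Finite := by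
      intro j
      obtain ⟨l, hl⟩ := hne j
      have h2 : P (π (g j l)) ≠ 0 := by
        rw [hcomp]
        exact (map_ne_zero_iff _ (algebraMap M L).injective).2 hl
      exact (Pool.Agent.Y729.RV.val_fin h2).subset fun w hw => hw l
    refine (Set.finite_iUnion h1).subset ?_
    rintro w ⟨j, hj⟩
    exact Set.mem_iUnion.2 ⟨j, hj⟩
  have hkey : ∀ v ∈ V, ∀ w : HeightOneSpectrum (𝓞 L), w.asIdeal.LiesOver v.asIdeal →
      (∀ p ∈ S, p ≠ 0 → (p : 𝓞 L) ∉ w.asIdeal) ∧
        w.valuation L (P (algebraMap K[X] A' X)) ≤ 1 ∧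
        ∃ j, ∀ l, w.valuation L (P (π (g j l))) < 1 := by
    intro v hv w hw
    obtain ⟨j, h1, h2, h3⟩ := hV v hv
    have he : v.asIdeal.ramificationIdx' w.asIdeal ≠ 0 :=
      Ideal.IsDedekindDomain.ramificationIdx'_ne_zero_of_liesOver w.asIdeal v.ne_bot
    refine ⟨fun p hp hp0 h => h1 p hp hp0 ?_, ?_, j, fun l => ?_⟩
    · rw [Ideal.mem_of_liesOver w.asIdeal v.asIdeal, map_natCast]
      exact h
    · rw [hX, ← HeightOneSpectrum.valuation_liesOver L v w]
      exact (pow_le_one_iff_of_nonneg zero_le he).2 h2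
    · rw [hcomp, ← HeightOneSpectrum.valuation_liesOver L v w]
      exact (pow_lt_one_iff_of_nonneg zero_le he).2 (h3 l)
  refine ⟨hfin.toFinset.filter fun w => ∃ v ∈ V, w.asIdeal.LiesOver v.asIdeal, ?_, ?_⟩
  · intro w hw
    rw [Finset.mem_filter] at hw
    obtain ⟨-, v, hv, hwv⟩ := hw
    exact hkey v hv w hwv
  · refine Pool.Agent.Y729.RV.base_change V _ fun v hv w hwv => ?_
    rw [Finset.mem_filter, Set.Finite.mem_toFinset]
    exact ⟨(hkey v hv w hwv).2.2, v, hv, hwv⟩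

variable [IsDedekindDomain A'] [Module.Finite K[X] A'] [FaithfulSMul K[X] A']

/-- **the truncated counting function on a cover** -/
theorem covT {m : ℕ} {f : Fin m → A} {E : Set (ℙ K (Fin m → K))} (hT : Trunc f E)
    (hH : Hgt (K := K) f) (π : A →ₐ[K[X]] A') (q : ℕ) (u v : Fin q → ℕ) (g : ∀ j, Fin (u j) → A)
    (y : ∀ j, Fin (v j) → A') (F : Fin q → Ideal A')
    (hg : ∀ j, (Ideal.span (Set.range (g j))).IsMaximal)
    (hgg : ∀ i j, i ≠ j → Ideal.span (Set.range (g i)) ≠ Ideal.span (Set.range (g j)))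
    (hw : ∀ j, ∃ (L : Type) (_ : Field L) (_ : NumberField L) (_ : Algebra K L) (ψ : A →ₐ[K] L),
        Function.Surjective ψ ∧ RingHom.ker ψ = Ideal.span (Set.range (g j)) ∧
          Wide K (fun i => ψ (f i)))
    (hF : ∀ j, F j ≠ ⊥)
    (hyF : ∀ j i, ∀ f ∈ F j, y j i * f ∈ (Ideal.span (Set.range fun l => π (g j l))).radical)
    (ε : ℝ) (hε : 0 < ε) :
    ∃ C : ℝ, 0 ≤ C ∧ ∀ (M L : Type) [Field M] [NumberField M] [Field L] [NumberField L]
      [Algebra K M] [Algebra K L] [Algebra M L] [IsScalarTower K M L] (φ : A →ₐ[K] M)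
      (P : A' →ₐ[K] L) (c : ℙ K (Fin m → K)), (∀ a, P (π a) = algebraMap M L (φ a)) → c ∉ E →
      Function.Surjective φ → RingHom.ker φ = Ideal.span {mem f c.rep} →
      (∀ j, RingHom.ker φ ≠ Ideal.span (Set.range (g j))) →
      ∀ S : Finset ℕ, (∀ p ∈ S, p.Prime) →
      ((∑ j, (finrank K (A ⧸ Ideal.span (Set.range (g j))) : ℝ)) / finrank K[X] A -
          (∑ j, (finrank K (A' ⧸ F j) : ℝ)) / finrank K[X] A' - ε) *
            logHeight₁ (P (algebraMap K[X] A' X)) +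
          finrank M L * Real.log |(discr M : ℝ)| ≤
          cc S (fun w : HeightOneSpectrum (𝓞 L) => w.valuation L (P (algebraMap K[X] A' X)) ≤ 1 ∧
            ∃ j, (∀ l, w.valuation L (P (π (g j l))) < 1) ∧ ∀ i, w.valuation L (P (y j i)) < 1) +
          Real.log |(discr L : ℝ)| + finrank ℚ L * (C + ∑ p ∈ S, Real.log p) := by
  classical
  obtain ⟨T, C₁, G, hT0, hC₁, hG, hkey⟩ := Pool.Agent.N395.CV.t K A A' π q u v g y F hF hyF (ε / 2)
    (by positivity)
  obtain ⟨C₂, hC₂, hbase⟩ := base hT hH q u g hg hgg hw T.primeFactors (ε / 2) (by positivity)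
  obtain ⟨C₃, hC₃, hroot⟩ := root_ht G hG
  have hn := rank_pos (K := K) (A := A)
  obtain ⟨D, hD⟩ : ∃ D : ℝ, D = (∑ j, (finrank K (A ⧸ Ideal.span (Set.range (g j))) : ℝ)) /
    finrank K[X] A := ⟨_, rfl⟩
  obtain ⟨D', hD'⟩ : ∃ D' : ℝ, D' = (∑ j, (finrank K (A' ⧸ F j) : ℝ)) / finrank K[X] A' :=
    ⟨_, rfl⟩
  have hD0 : 0 ≤ D := by rw [hD]; positivity
  have hD'0 : 0 ≤ D' := by rw [hD']; positivity
  rw [← hD] at hbase
  rw [← hD'] at hkey
  rw [← hD, ← hD']
  refine ⟨C₁ + C₂ + D * C₃, by positivity, ?_⟩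
  intro M L _ _ _ _ _ _ _ _ φ P c hcomp hcE hφ hker hne S hS
  have hmax : (RingHom.ker φ).IsMaximal := RingHom.ker_isMaximal_of_surjective φ hφ
  have hne' : ∀ j, ∃ l, φ (g j l) ≠ 0 := by
    intro j
    by_contra hcon
    push Not at hcon
    have h1 : Ideal.span (Set.range (g j)) ≤ RingHom.ker φ := by
      rw [Ideal.span_le]
      rintro _ ⟨l, rfl⟩
      exact hcon l
    exact hne j ((hg j).eq_of_le hmax.ne_top h1).symm
  have hneP : ∀ j, ∃ l, P (π (g j l)) ≠ 0 := by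
    intro j
    obtain ⟨l, hl⟩ := hne' j
    refine ⟨l, ?_⟩
    rw [hcomp]
    exact (map_ne_zero_iff _ (algebraMap M L).injective).2 hl
  have hX : P (algebraMap K[X] A' X) = algebraMap M L (φ (algebraMap K[X] A X)) := by
    rw [← hcomp, AlgHom.commutes]
  obtain ⟨B, hB⟩ : ∃ B : HeightOneSpectrum (𝓞 L) → Prop, B = fun w : HeightOneSpectrum (𝓞 L) =>
    w.valuation L (P (algebraMap K[X] A' X)) ≤ 1 ∧
      ∃ j, (∀ l, w.valuation L (P (π (g j l))) < 1) ∧ ∀ i, w.valuation L (P (y j i)) < 1 :=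
    ⟨_, rfl⟩
  have hBfin : {w | B w}.Finite := by
    have h1 : ∀ j, {w : HeightOneSpectrum (𝓞 L) |
        ∀ l, w.valuation L (P (π (g j l))) < 1}.Finite := by
      intro j
      obtain ⟨l, hl⟩ := hneP j
      exact (Pool.Agent.Y729.RV.val_fin hl).subset fun w hw => hw l
    refine (Set.finite_iUnion h1).subset ?_
    intro w hw
    have hw' : B w := hw
    rw [hB] at hw'
    obtain ⟨-, j, h2, -⟩ := hw'
    exact Set.mem_iUnion.2 ⟨j, h2⟩
  have hcc0 : 0 ≤ cc ∅ B := by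
    unfold Pool.Agent.W223.CV.cc
    exact finsum_nonneg fun v => Pool.Agent.W223.CV.ct_nonneg _ _ v
  have hccS := Pool.Agent.W223.AC.cc_outside Pool.Agent.W803.AC.t S hS B hBfin
  rw [← hB]
  set x := P (algebraMap K[X] A' X) with hx
  have hML : (0 : ℝ) ≤ finrank M L := Nat.cast_nonneg _
  have hMLQ : (finrank M L : ℝ) ≤ finrank ℚ L := Pool.Agent.Y557.OE.fin_le
  have hL0 : (0 : ℝ) ≤ finrank ℚ L := Nat.cast_nonneg _
  have hx0 : 0 ≤ logHeight₁ x := zero_le_logHeight₁ _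
  have hxe : logHeight₁ x = finrank M L * logHeight₁ (φ (algebraMap K[X] A X)) := by
    rw [hX]
    exact Pool.Agent.Y557.OE.ht_ext _
  by_cases hGx : aeval x G ≠ 0
  · obtain ⟨V, hV, h1⟩ := hbase M φ c hcE hφ hker hne
    obtain ⟨W, hW, h2⟩ := up π g T.primeFactors φ P hcomp hne' V hV
    have h3 := hkey ∅ L P hGx hneP W hBfin.toFinset
      (by
        intro w hw
        obtain ⟨h4, h5, h6⟩ := hW w hw
        refine ⟨Pool.Agent.W223.AC.not_mem_of_primes hT0 fun p hp => h4 p hp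
          (Nat.prime_of_mem_primeFactors hp).ne_zero, fun p hp => absurd hp (Finset.notMem_empty p),
          h5, h6⟩)
      (by
        intro w _ h5 h6
        rw [Set.Finite.mem_toFinset, hB]
        exact ⟨h5, h6⟩)
    have h4 : ∑ w ∈ hBfin.toFinset, lN w ≤ cc ∅ B := by
      refine Pool.Agent.N395.CV.sum_le_cc ∅ hBfin _ fun w hw => ?_
      exact ⟨fun p hp => absurd hp (Finset.notMem_empty p), (Set.Finite.mem_toFinset hBfin).1 hw⟩
    have h5 := mul_le_mul_of_nonneg_left h1 hML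
    have h6 : (D - ε / 2) * logHeight₁ x =
        finrank M L * ((D - ε / 2) * logHeight₁ (φ (algebraMap K[X] A X))) := by
      rw [hxe]; ring
    have h7 : (finrank M L : ℝ) * C₂ ≤ finrank ℚ L * C₂ := mul_le_mul_of_nonneg_right hMLQ hC₂
    have h8 : 0 ≤ (finrank ℚ L : ℝ) * (D * C₃) := by positivity
    nlinarith
  · rw [not_not] at hGx
    have h1 := hroot L x hGx
    have h2 := Pool.Agent.Y729.RV.base_change (k := M) (L := L) ∅ ∅
      (fun v hv => absurd hv (Finset.notMem_empty v))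
    rw [Finset.sum_empty, Finset.sum_empty, add_zero, add_zero] at h2
    have h3 : (D - D' - ε) * logHeight₁ x ≤ D * (finrank ℚ L * C₃) := by
      calc (D - D' - ε) * logHeight₁ x ≤ D * logHeight₁ x :=
            mul_le_mul_of_nonneg_right (by linarith) hx0
        _ ≤ _ := mul_le_mul_of_nonneg_left h1 hD0
    have h4 : 0 ≤ (finrank ℚ L : ℝ) * (C₁ + C₂) := by positivity
    nlinarith

/-- **the proximity function on a cover** -/
theorem covP {m : ℕ} {f : Fin m → A} {E : Set (ℙ K (Fin m → K))} (hT : Trunc f E)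
    (hH : Hgt (K := K) f) (π : A →ₐ[K[X]] A') (q : ℕ) (u s : Fin q → ℕ) (g : ∀ j, Fin (u j) → A)
    (p : Fin q → K[X]) (y : ∀ j, Fin (s j + 1) → A')
    (hg : ∀ j, (Ideal.span (Set.range (g j))).IsMaximal)
    (hgg : ∀ i j, i ≠ j → Ideal.span (Set.range (g i)) ≠ Ideal.span (Set.range (g j)))
    (hw : ∀ j, ∃ (L : Type) (_ : Field L) (_ : NumberField L) (_ : Algebra K L) (ψ : A →ₐ[K] L),
        Function.Surjective ψ ∧ RingHom.ker ψ = Ideal.span (Set.range (g j)) ∧
          Wide K (fun i => ψ (f i)))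
    (hp : ∀ j, (p j).Monic) (hp1 : ∀ j, 1 ≤ (p j).natDegree)
    (hy0 : ∀ j, y j 0 = algebraMap K[X] A' (p j))
    (hyr : ∀ j i, y j i ∈ (Ideal.span (Set.range fun l => π (g j l))).radical)
    (ε : ℝ) (hε : 0 < ε) :
    ∃ C : ℝ, 0 ≤ C ∧ ∀ (M L : Type) [Field M] [NumberField M] [Field L] [NumberField L]
      [Algebra K M] [Algebra K L] [Algebra M L] [IsScalarTower K M L] (φ : A →ₐ[K] M)
      (P : A' →ₐ[K] L) (c : ℙ K (Fin m → K)), (∀ a, P (π a) = algebraMap M L (φ a)) → c ∉ E →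
      Function.Surjective φ → RingHom.ker φ = Ideal.span {mem f c.rep} →
      (∀ j, P (y j 0) ≠ 0) →
      (∀ j, {v : HeightOneSpectrum (𝓞 L) | lamF (y j) (P : A' →+* L) v ≠ 0}.Finite) ∧
      ∀ S : Finset ℕ, (∀ p ∈ S, p.Prime) →
      ((∑ j, (finrank K (A ⧸ Ideal.span (Set.range (g j))) : ℝ)) / finrank K[X] A -
          (∑ j, (finrank K (A' ⧸ Ideal.span (Set.range (y j))) : ℝ)) / finrank K[X] A' - ε) *
            logHeight₁ (P (algebraMap K[X] A' X)) +
          finrank M L * Real.log |(discr M : ℝ)| +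
          ∑ j, (∑ w : InfinitePlace L, (w.mult : ℝ) * lamI (y j) (P : A' →+* L) w +
            mS S (y j) (P : A' →+* L)) ≤
          Real.log |(discr L : ℝ)| + finrank ℚ L * (C + ∑ p ∈ S, Real.log p) := by
  classical
  obtain ⟨T, C₁, G, hT0, hC₁, hG, hkey⟩ := keyP K A' q u s (fun j l => π (g j l)) p y hp hp1 hy0
    hyr (ε / 2) (by positivity)
  obtain ⟨C₂, hC₂, hbase⟩ := base hT hH q u g hg hgg hw T.primeFactors (ε / 2) (by positivity)
  obtain ⟨C₃, hC₃, hroot⟩ := root_ht G hG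
  choose C₄ hC₄ hev using fun j => Pool.Agent.N415.DRVK.ht_eval (k := K) (p j).natDegree (p j) le_rfl
  have hn := rank_pos (K := K) (A := A)
  obtain ⟨D, hD⟩ : ∃ D : ℝ, D = (∑ j, (finrank K (A ⧸ Ideal.span (Set.range (g j))) : ℝ)) /
    finrank K[X] A := ⟨_, rfl⟩
  obtain ⟨D', hD'⟩ : ∃ D' : ℝ, D' = (∑ j, (finrank K (A' ⧸ Ideal.span (Set.range (y j))) : ℝ)) /
    finrank K[X] A' := ⟨_, rfl⟩
  have hD0 : 0 ≤ D := by rw [hD]; positivity
  have hD'0 : 0 ≤ D' := by rw [hD']; positivity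
  rw [← hD] at hbase
  rw [← hD'] at hkey
  rw [← hD, ← hD']
  obtain ⟨C₅, hC₅⟩ : ∃ C₅ : ℝ, C₅ = ∑ j, ((p j).natDegree * C₃ + C₄ j) := ⟨_, rfl⟩
  have hC₅0 : 0 ≤ C₅ := by
    rw [hC₅]
    exact Finset.sum_nonneg fun j _ => add_nonneg (mul_nonneg (Nat.cast_nonneg _) hC₃) (hC₄ j)
  refine ⟨C₁ + C₂ + D * C₃ + C₅, by positivity, ?_⟩
  intro M L _ _ _ _ _ _ _ _ φ P c hcomp hcE hφ hker hPne
  refine ⟨fun j => (Pool.Agent.Y557.OE.prox_le ∅ (y j) (P : A' →+* L) (hPne j)).1, fun S hS => ?_⟩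
  have hne' : ∀ j, ∃ l, φ (g j l) ≠ 0 := by
    intro j
    by_contra hcon
    push Not at hcon
    have h1 : (Ideal.span (Set.range fun l => π (g j l))) ≤ RingHom.ker P := by
      rw [Ideal.span_le]
      rintro _ ⟨l, rfl⟩
      show P (π (g j l)) = 0
      rw [hcomp, hcon l, map_zero]
    obtain ⟨k, hk⟩ := hyr j 0
    have h2 : P (y j 0 ^ k) = 0 := h1 hk
    rw [map_pow] at h2
    exact hPne j ((pow_eq_zero_iff (by
      rintro rfl
      rw [pow_zero] at h2
      exact one_ne_zero h2)).1 h2)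
  have hne : ∀ j, RingHom.ker φ ≠ Ideal.span (Set.range (g j)) := by
    intro j h
    obtain ⟨l, hl⟩ := hne' j
    apply hl
    have h1 : g j l ∈ Ideal.span (Set.range (g j)) := Ideal.subset_span ⟨l, rfl⟩
    rw [← h] at h1
    exact h1
  have hX : P (algebraMap K[X] A' X) = algebraMap M L (φ (algebraMap K[X] A X)) := by
    rw [← hcomp, AlgHom.commutes]
  set x := P (algebraMap K[X] A' X) with hx
  have hML : (0 : ℝ) ≤ finrank M L := Nat.cast_nonneg _
  have hMLQ : (finrank M L : ℝ) ≤ finrank ℚ L := Pool.Agent.Y557.OE.fin_le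
  have hKLQ : (finrank K L : ℝ) ≤ finrank ℚ L := Pool.Agent.Y557.OE.fin_le
  have hL0 : (0 : ℝ) ≤ finrank ℚ L := Nat.cast_nonneg _
  have hx0 : 0 ≤ logHeight₁ x := zero_le_logHeight₁ _
  have hxe : logHeight₁ x = finrank M L * logHeight₁ (φ (algebraMap K[X] A X)) := by
    rw [hX]
    exact Pool.Agent.Y557.OE.ht_ext _
  have hRs : 0 ≤ ∑ p ∈ S, Real.log p := Finset.sum_nonneg fun p _ => Real.log_natCast_nonneg p
  by_cases hGx : aeval x G ≠ 0
  · obtain ⟨V, hV, h1⟩ := hbase M φ c hcE hφ hker hne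
    obtain ⟨W, hW, h2⟩ := up π g T.primeFactors φ P hcomp hne' V hV
    have h3 := (hkey L P hGx hPne).2 S hS W
      (by
        intro w hw
        obtain ⟨h4, h5, h6⟩ := hW w hw
        exact ⟨Pool.Agent.W223.AC.not_mem_of_primes hT0 fun p hp => h4 p hp
          (Nat.prime_of_mem_primeFactors hp).ne_zero, h5, h6⟩)
    have h5 := mul_le_mul_of_nonneg_left h1 hML
    have h6 : (D - ε / 2) * logHeight₁ x =
        finrank M L * ((D - ε / 2) * logHeight₁ (φ (algebraMap K[X] A X))) := by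
      rw [hxe]; ring
    have h7 : (finrank M L : ℝ) * C₂ ≤ finrank ℚ L * C₂ := mul_le_mul_of_nonneg_right hMLQ hC₂
    have h8 : 0 ≤ (finrank ℚ L : ℝ) * (D * C₃ + C₅) := by positivity
    nlinarith
  · rw [not_not] at hGx
    have h1 := hroot L x hGx
    have h2 := Pool.Agent.Y729.RV.base_change (k := M) (L := L) ∅ ∅
      (fun v hv => absurd hv (Finset.notMem_empty v))
    rw [Finset.sum_empty, Finset.sum_empty, add_zero, add_zero] at h2
    have h3 : (D - D' - ε) * logHeight₁ x ≤ D * (finrank ℚ L * C₃) := by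
      calc (D - D' - ε) * logHeight₁ x ≤ D * logHeight₁ x :=
            mul_le_mul_of_nonneg_right (by linarith) hx0
        _ ≤ _ := mul_le_mul_of_nonneg_left h1 hD0
    have h4 : 0 ≤ (finrank ℚ L : ℝ) * (C₁ + C₂) := by positivity
    have h5 : ∑ j, (∑ w : InfinitePlace L, (w.mult : ℝ) * lamI (y j) (P : A' →+* L) w +
            mS S (y j) (P : A' →+* L)) ≤ finrank ℚ L * C₅ := by
      rw [hC₅, Finset.mul_sum]
      refine Finset.sum_le_sum fun j _ => ?_
      refine (Pool.Agent.Y557.OE.prox_le S (y j) (P : A' →+* L) (hPne j)).2.trans ?_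
      have h6 : (P : A' →+* L) (y j 0) = aeval x (p j) := by
        have h7 : (P.comp (IsScalarTower.toAlgHom K K[X] A')) (p j) =
            aeval ((P.comp (IsScalarTower.toAlgHom K K[X] A')) X) (p j) := by
          rw [Polynomial.aeval_algHom_apply, aeval_X_left_apply]
        rw [hy0]
        exact h7
      rw [h6]
      refine (hev j L x).trans ?_
      have h8 : ((p j).natDegree : ℝ) * logHeight₁ x ≤ (p j).natDegree * (finrank ℚ L * C₃) :=
        mul_le_mul_of_nonneg_left h1 (Nat.cast_nonneg _)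
      have h9 := mul_le_mul_of_nonneg_right hKLQ (hC₄ j)
      linarith
    have h6 : 0 ≤ (finrank ℚ L : ℝ) * ∑ p ∈ S, Real.log p := by positivity
    nlinarith

end

end Pool.Agent.V7H60.CC
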