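import Mathlib
import Pool.Agent.V7H41.CC.Spec

/-! (CAT): every caterpillar comes from positions. -/

set_option autoImplicit false

open Finset

namespace Pool.Agent.V7H60.CC

open Pool.Agent.V7H41.CC

lemma closed_reach {V : Type} {G : SimpleGraph V} {S : Set V}
    (hS : ∀ u v, u ∈ S → G.Adj u v → v ∈ S) {u v : V} (w : G.Walk u v) (hu : u ∈ S) : v ∈ S := by
  induction w with
  | nil => exact hu
  | cons h p ih => exact ih (hS _ _ hu h)

lemma leaf_nbr {n : ℕ} (T : PhyloTree n) (hn : 4 ≤ n) (i : Fin n) :
    ∃ u : T.V, T.G.Adj (T.leaf i) u ∧ ∀ j, T.leaf j ≠ u := by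
  have h1 : (T.G.neighborSet (T.leaf i)).ncard = 1 := (T.isLeaf _).1 ⟨i, rfl⟩
  obtain ⟨u, hu⟩ := Set.ncard_eq_one.1 h1
  have hadj : T.G.Adj (T.leaf i) u := by
    have : u ∈ T.G.neighborSet (T.leaf i) := by rw [hu]; rfl
    exact this
  refine ⟨u, hadj, ?_⟩
  rintro j rfl
  have h2 : (T.G.neighborSet (T.leaf j)).ncard = 1 := (T.isLeaf _).1 ⟨j, rfl⟩
  obtain ⟨u', hu'⟩ := Set.ncard_eq_one.1 h2
  have h3 : T.leaf i ∈ T.G.neighborSet (T.leaf j) := hadj.symm
  rw [hu', Set.mem_singleton_iff] at h3
  have hcl : ∀ a b, a ∈ ({T.leaf i, T.leaf j} : Set T.V) → T.G.Adj a b →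
      b ∈ ({T.leaf i, T.leaf j} : Set T.V) := by
    rintro a b (rfl | rfl) hab
    · have : b ∈ T.G.neighborSet (T.leaf i) := hab
      rw [hu] at this
      right
      exact this
    · have : b ∈ T.G.neighborSet (T.leaf j) := hab
      rw [hu', ← h3] at this
      left
      exact this
  have hall : ∀ k, k = i ∨ k = j := by
    intro k
    obtain ⟨w⟩ := T.isTree.1.preconnected (T.leaf i) (T.leaf k)
    rcases closed_reach hcl w (by left; rfl) with h | h
    · left; exact T.leaf_inj h
    · right; exact T.leaf_inj h
  have h4 : (univ : Finset (Fin n)) ⊆ {i, j} := by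
    intro k _
    rcases hall k with h | h <;> simp [h]
  have h5 := card_le_card h4
  have h6 := Finset.card_le_two (a := i) (b := j)
  rw [card_univ, Fintype.card_fin] at h5
  omega

lemma seg {V : Type} {G : SimpleGraph V} {m : ℕ} (g : Fin m → V)
    (hg : ∀ k l : Fin m, k.1 + 1 = l.1 → G.Adj (g k) (g l)) :
    ∀ (d : ℕ) (i j : Fin m), j.1 = i.1 + d → ∃ w : G.Walk (g i) (g j),
      ∀ v ∈ w.support, ∃ l : Fin m, i ≤ l ∧ l ≤ j ∧ v = g l := by
  intro d
  induction d with
  | zero =>
    intro i j h
    have : i = j := Fin.ext (by omega)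
    subst this
    refine ⟨SimpleGraph.Walk.nil, ?_⟩
    intro v hv
    simp only [SimpleGraph.Walk.support_nil, List.mem_singleton] at hv
    exact ⟨i, le_rfl, le_rfl, hv⟩
  | succ d ih =>
    intro i j h
    have hi : i.1 + 1 < m := by have := j.2; omega
    obtain ⟨w, hw⟩ := ih ⟨i.1 + 1, hi⟩ j (by simp only; omega)
    refine ⟨SimpleGraph.Walk.cons (hg i ⟨i.1 + 1, hi⟩ rfl) w, ?_⟩
    intro v hv
    rw [SimpleGraph.Walk.support_cons, List.mem_cons] at hv
    rcases hv with hv | hv
    · exact ⟨i, le_rfl, Fin.le_def.2 (by omega), hv⟩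
    · obtain ⟨l, h1, h2, h3⟩ := hw v hv
      refine ⟨l, ?_, h2, h3⟩
      rw [Fin.le_def] at h1 ⊢
      simp only at h1
      omega

theorem t_CAT : S_CAT := by
  classical
  intro n T hn hcat
  obtain ⟨m, ⟨e⟩⟩ := hcat
  have hfin : Finite T.V := T.finite
  set I : Set T.V := {v | ∀ i, T.leaf i ≠ v} with hI
  let g : Fin m → T.V := fun k => (e.symm k).1
  have hgI : ∀ k i, T.leaf i ≠ g k := fun k i => (e.symm k).2 i
  have hginj : Function.Injective g := by
    intro a b h
    exact e.symm.injective (Subtype.ext h)
  have hgadj : ∀ k l : Fin m, k.1 + 1 = l.1 → T.G.Adj (g k) (g l) := by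
    intro k l h
    have h1 : (SimpleGraph.pathGraph m).Adj k l := by
      rw [SimpleGraph.pathGraph_adj]
      left
      exact h
    have h2 : (T.G.induce I).Adj (e.symm k) (e.symm l) := by
      rw [e.symm.map_adj_iff]
      exact h1
    exact h2
  have hsurj : ∀ v : T.V, (∀ i, T.leaf i ≠ v) → ∃ k, g k = v := by
    intro v hv
    refine ⟨e ⟨v, hv⟩, ?_⟩
    change (e.symm (e ⟨v, hv⟩)).1 = v
    rw [e.symm_apply_apply]
  -- positions
  have hex : ∀ i : Fin n, ∃ k : Fin m, T.G.Adj (T.leaf i) (g k) := by
    intro i
    obtain ⟨u, hu1, hu2⟩ := leaf_nbr T hn i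
    obtain ⟨k, hk⟩ := hsurj u hu2
    exact ⟨k, by rw [hk]; exact hu1⟩
  choose p hp using hex
  -- degrees of the inner vertices
  have hdeg : ∀ k : Fin m, ∀ s : Finset T.V, (∀ v ∈ s, T.G.Adj (g k) v) → s.card ≤ 3 := by
    intro k s hs
    have h1 : (T.G.neighborSet (g k)).ncard = 3 := by
      rcases T.degree (g k) with h | h
      · obtain ⟨i, hi⟩ := (T.isLeaf (g k)).2 h
        exact absurd hi (hgI k i)
      · exact h
    rw [← h1, ← Set.ncard_coe_finset]
    apply Set.ncard_le_ncard
    · intro v hv
      exact hs v hv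
    · exact Set.toFinite _
  set X : Finset (Fin n) := univ.filter (fun i => ∀ j, p j = p i → i ≤ j) with hX
  refine ⟨fun i => (p i : ℕ), X, ?_, ?_, ?_⟩
  · -- the leaves not in X
    have h0 : ∀ i ∈ Xᶜ, ∃ j, p j = p i ∧ j < i ∧ j ∈ X := by
      intro i hi
      have hne : (univ.filter (fun j => p j = p i)).Nonempty := ⟨i, by simp⟩
      set j := (univ.filter (fun j => p j = p i)).min' hne with hj
      have h1 := Finset.min'_mem _ hne
      rw [← hj, mem_filter] at h1
      have h2 : j ∈ X := by
        rw [hX, mem_filter]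
        refine ⟨mem_univ _, fun l hl => ?_⟩
        apply Finset.min'_le
        rw [mem_filter]
        exact ⟨mem_univ _, hl.trans h1.2⟩
      refine ⟨j, h1.2, ?_, h2⟩
      have h3 : j ≤ i := Finset.min'_le _ _ (by simp)
      rcases h3.lt_or_eq with h | h
      · exact h
      · rw [mem_compl] at hi
        exact absurd (h ▸ h2) hi
    -- four leaves at one position are impossible, and so on
    have h4 : ∀ k : Fin m, ∀ s : Finset (Fin n), (∀ i ∈ s, p i = k) → ∀ r : Finset (Fin m),
        (∀ l ∈ r, k.1 + 1 = l.1 ∨ l.1 + 1 = k.1) → s.card + r.card ≤ 3 := by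
      intro k s hs r hr
      have h5 := hdeg k (s.image T.leaf ∪ r.image g) (by
        intro v hv
        rw [mem_union, mem_image, mem_image] at hv
        rcases hv with ⟨i, hi, rfl⟩ | ⟨l, hl, rfl⟩
        · rw [← hs i hi]
          exact (hp i).symm
        · rcases hr l hl with h | h
          · exact hgadj k l h
          · exact (hgadj l k h).symm)
      rw [card_union_of_disjoint, card_image_of_injective _ T.leaf_inj,
        card_image_of_injective _ hginj] at h5
      · exact h5
      · rw [Finset.disjoint_left]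
        intro v hv hv2
        rw [mem_image] at hv hv2
        obtain ⟨i, _, rfl⟩ := hv
        obtain ⟨l, _, h⟩ := hv2
        exact hgI l i h.symm
    have hm2 : 2 ≤ m := by
      by_contra hm
      have h6 : ∀ i : Fin n, p i = p ⟨0, by omega⟩ := by
        intro i
        apply Fin.ext
        have := (p i).2
        have := (p ⟨0, by omega⟩).2
        omega
      have h7 := h4 (p ⟨0, by omega⟩) univ (fun i _ => h6 i) ∅ (by simp)
      rw [card_univ, Fintype.card_fin, card_empty] at h7
      omega
    have h8 : Xᶜ.card ≤ 2 := by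
      have hmaps : ∀ i ∈ Xᶜ, p i ∈ ({⟨0, by omega⟩, ⟨m - 1, by omega⟩} : Finset (Fin m)) := by
        intro i hi
        obtain ⟨j, hj1, hj2, _⟩ := h0 i hi
        by_contra hcon
        rw [mem_insert, mem_singleton, not_or] at hcon
        have hk0 : (p i).1 ≠ 0 := fun h => hcon.1 (Fin.ext h)
        have hk1 : (p i).1 ≠ m - 1 := fun h => hcon.2 (Fin.ext h)
        have hk2 := (p i).2
        have h9 := h4 (p i) {i, j} (by
          intro l hl
          rw [mem_insert, mem_singleton] at hl
          rcases hl with rfl | rfl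
          · rfl
          · exact hj1) {⟨(p i).1 - 1, by omega⟩, ⟨(p i).1 + 1, by omega⟩} (by
          intro l hl
          rw [mem_insert, mem_singleton] at hl
          rcases hl with rfl | rfl
          · right
            simp only
            omega
          · left
            rfl)
        rw [card_pair hj2.ne', card_pair (by
          intro h
          have := congrArg Fin.val h
          simp only at this
          omega)] at h9
        omega
      have hinj : Set.InjOn p (Xᶜ : Finset (Fin n)) := by
        intro i hi i' hi' hpp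
        by_contra hne
        obtain ⟨j, hj1, hj2, hj3⟩ := h0 i hi
        obtain ⟨j', hj1', hj2', hj3'⟩ := h0 i' hi'
        have hji : j ≠ i := hj2.ne
        have hji' : j ≠ i' := by
          rintro rfl
          have := mem_compl.1 (by exact_mod_cast hi' : j ∈ Xᶜ)
          exact this hj3
        -- the position has an inner neighbour
        have hk2 := (p i).2
        rcases Nat.eq_zero_or_pos (p i).1 with hz | hz
        · have h9 := h4 (p i) {i, i', j} (by
            intro l hl
            simp only [mem_insert, mem_singleton] at hl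
            rcases hl with rfl | rfl | rfl
            · rfl
            · exact hpp.symm
            · exact hj1) {⟨(p i).1 + 1, by omega⟩} (by
            intro l hl
            rw [mem_singleton] at hl
            subst hl
            left
            rfl)
          rw [card_singleton, card_eq_three.2 ⟨i, i', j, hne, hji.symm, hji'.symm, rfl⟩] at h9
          omega
        · have h9 := h4 (p i) {i, i', j} (by
            intro l hl
            simp only [mem_insert, mem_singleton] at hl
            rcases hl with rfl | rfl | rfl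
            · rfl
            · exact hpp.symm
            · exact hj1) {⟨(p i).1 - 1, by omega⟩} (by
            intro l hl
            rw [mem_singleton] at hl
            subst hl
            right
            simp only
            omega)
          rw [card_singleton, card_eq_three.2 ⟨i, i', j, hne, hji.symm, hji'.symm, rfl⟩] at h9
          omega
      exact (card_le_card_of_injOn p hmaps hinj).trans card_le_two
    have h10 := card_compl X
    rw [Fintype.card_fin] at h10
    omega
  · intro i hi j hj h
    have h' : p i = p j := Fin.ext h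
    have hi' := (mem_filter.1 (by exact_mod_cast hi : i ∈ X)).2
    have hj' := (mem_filter.1 (by exact_mod_cast hj : j ∈ X)).2
    exact le_antisymm (hi' j h'.symm) (hj' i h')
  · -- convexity
    intro P hP
    -- the span of a set
    have hwalk : ∀ a b : Fin n, ∃ w : T.G.Walk (T.leaf a) (T.leaf b), ∀ v ∈ w.support,
        v = T.leaf a ∨ v = T.leaf b ∨ ∃ l : Fin m, v = g l ∧
          (p a ≤ l ∧ l ≤ p b ∨ p b ≤ l ∧ l ≤ p a) := by
      have key : ∀ a b : Fin n, p a ≤ p b → ∃ w : T.G.Walk (T.leaf a) (T.leaf b),
          ∀ v ∈ w.support, v = T.leaf a ∨ v = T.leaf b ∨ ∃ l : Fin m, v = g l ∧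
            (p a ≤ l ∧ l ≤ p b ∨ p b ≤ l ∧ l ≤ p a) := by
        intro a b hab
        obtain ⟨w, hw⟩ := seg g hgadj ((p b).1 - (p a).1) (p a) (p b)
          (by rw [Fin.le_def] at hab; omega)
        refine ⟨SimpleGraph.Walk.cons (hp a) (w.append
          (SimpleGraph.Walk.cons (hp b).symm SimpleGraph.Walk.nil)), ?_⟩
        intro v hv
        rw [SimpleGraph.Walk.support_cons, List.mem_cons,
          SimpleGraph.Walk.mem_support_append_iff, SimpleGraph.Walk.support_cons,
          List.mem_cons, SimpleGraph.Walk.support_nil, List.mem_singleton] at hv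
        rcases hv with h | h | h | h
        · left; exact h
        · obtain ⟨l, h1, h2, h3⟩ := hw v h
          right; right
          exact ⟨l, h3, Or.inl ⟨h1, h2⟩⟩
        · right; right
          exact ⟨p b, h, Or.inl ⟨hab, le_rfl⟩⟩
        · right; left; exact h
      intro a b
      rcases le_total (p a) (p b) with h | h
      · exact key a b h
      · obtain ⟨w, hw⟩ := key b a h
        refine ⟨w.reverse, fun v hv => ?_⟩
        rw [SimpleGraph.Walk.support_reverse, List.mem_reverse] at hv
        rcases hw v hv with h1 | h1 | ⟨l, h1, h2⟩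
        · right; left; exact h1
        · left; exact h1
        · right; right
          exact ⟨l, h1, h2.symm⟩
    have hspan : ∀ A : Finset (Fin n), ∀ v ∈ T.span A, (∃ a ∈ A, v = T.leaf a) ∨
        (2 ≤ A.card ∧ ∃ l : Fin m, v = g l ∧ (∃ a ∈ A, p a ≤ l) ∧ ∃ a ∈ A, l ≤ p a) := by
      rintro A v ⟨a, ha, b, hb, w, hw, hv⟩
      obtain ⟨w', hw'⟩ := hwalk a b
      have hu := T.isTree.2.path_unique ⟨w, hw⟩ ⟨w'.bypass, w'.bypass_isPath⟩
      have hu' : w = w'.bypass := congrArg Subtype.val hu
      have hv' : v ∈ w'.support := by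
        apply w'.support_bypass_subset_support
        rw [← hu']
        exact hv
      by_cases hab : a = b
      · subst hab
        have : w = SimpleGraph.Walk.nil := by
          exact SimpleGraph.Walk.isPath_iff_eq_nil.1 hw
        rw [this, SimpleGraph.Walk.support_nil, List.mem_singleton] at hv
        left
        exact ⟨a, ha, hv⟩
      · have hc : 2 ≤ A.card := by
          have : 1 < A.card := Finset.one_lt_card.2 ⟨a, ha, b, hb, hab⟩
          omega
        rcases hw' v hv' with h1 | h1 | ⟨l, h1, h2⟩
        · left; exact ⟨a, ha, h1⟩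
        · left; exact ⟨b, hb, h1⟩
        · right
          refine ⟨hc, l, h1, ?_⟩
          rcases h2 with h2 | h2
          · exact ⟨⟨a, ha, h2.1⟩, ⟨b, hb, h2.2⟩⟩
          · exact ⟨⟨b, hb, h2.1⟩, ⟨a, ha, h2.2⟩⟩
    intro A hA B hB hAB
    rw [Set.disjoint_left]
    intro v hvA hvB
    have hdisj : Disjoint A B := P.disjoint hA hB hAB
    rcases hspan A v hvA with ⟨a, ha, h1⟩ | ⟨hcA, l, h1, ⟨a1, ha1, h2⟩, ⟨a2, ha2, h3⟩⟩
    · rcases hspan B v hvB with ⟨b, hb, h4⟩ | ⟨hcB, l', h4, _⟩
      · have : a = b := T.leaf_inj (h1.symm.trans h4)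
        subst this
        exact Finset.disjoint_left.1 hdisj ha hb
      · exact hgI l' a (h1.symm.trans h4)
    · rcases hspan B v hvB with ⟨b, hb, h4⟩ | ⟨hcB, l', h4, ⟨b1, hb1, h5⟩, ⟨b2, hb2, h6⟩⟩
      · exact hgI l b (h4.symm.trans h1)
      · have : l = l' := hginj (h1.symm.trans h4)
        subst this
        rcases hP A hA B hB hAB hcA hcB with h | h
        · have h7 := h a2 ha2 b1 hb1
          simp only at h7
          rw [Fin.le_def] at h3 h5
          omega
        · have h7 := h a1 ha1 b2 hb2
          simp only at h7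
          rw [Fin.le_def] at h2 h6
          omega

end Pool.Agent.V7H60.CC
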