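import Pool.Agent.Y728.AK.ProxK

/-! Proximity functions of closed points of a curve over a number field: a version of
`Pool.Agent.Y728.AK.ProxK` for ideals which contain a monic polynomial in the coordinate. -/

set_option autoImplicit false

namespace Pool.Agent.V7H60.CC

open Polynomial IsDedekindDomain NumberField
open Pool.Agent.W223.AC Pool.Agent.W223.CV
open Pool.Agent.W125.CV (fv fv_int)
open Pool.Agent.W756.AC (Q Q_zero Q_gen Q_add Q_mul fv_add fv_nat w_add w_nat)
open Pool.Agent.Y728.AK.PX (inf_bound fin_bound)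

/-- `z0` is a monic polynomial of positive degree in the coordinate, the coefficients of which have
integral multiples -/
def Mon {A : Type} [CommRing A] [Algebra ℚ[X] A] (z0 : A) : Prop :=
  ∃ (d : ℕ) (a : Fin (d + 1) → A) (N : ℕ), N ≠ 0 ∧ (∀ i, IsIntegral ℤ ((N : A) * a i)) ∧
    z0 = tt A ^ (d + 1) + ∑ i, a i * tt A ^ (i : ℕ)

theorem fv_sum {L : Type} [Field L] [NumberField L] (v : HeightOneSpectrum (𝓞 L)) {ι : Type}
    (s : Finset ι) (f : ι → L) {B : ℝ} (hB : 0 ≤ B) (h : ∀ i ∈ s, fv v (f i) ≤ B) :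
    fv v (∑ i ∈ s, f i) ≤ B := by
  classical
  induction s using Finset.induction_on with
  | empty => rw [Finset.sum_empty, map_zero]; exact hB
  | insert a s ha ih =>
    rw [Finset.sum_insert ha]
    refine (fv_add v _ _).trans (max_le (h a (Finset.mem_insert_self a s)) ?_)
    exact ih fun i hi => h i (Finset.mem_insert_of_mem hi)

theorem w_sum {L : Type} [Field L] [NumberField L] (w : InfinitePlace L) {ι : Type}
    (s : Finset ι) (f : ι → L) : w (∑ i ∈ s, f i) ≤ ∑ i ∈ s, w (f i) := by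
  classical
  induction s using Finset.induction_on with
  | empty => rw [Finset.sum_empty, Finset.sum_empty, map_zero]
  | insert a s ha ih =>
    rw [Finset.sum_insert ha, Finset.sum_insert ha]
    exact (w_add w _ _).trans (add_le_add le_rfl ih)

/-- the coordinate is bounded where `z0` is -/
theorem t_bdd {A : Type} [CommRing A] [Algebra ℚ[X] A] {z0 : A} (hz : Mon z0) :
    ∃ (N : ℕ) (B : ℝ), N ≠ 0 ∧ 1 ≤ B ∧ ∀ (L : Type) [Field L] [NumberField L] (φ : A →+* L),
      (∀ v : HeightOneSpectrum (𝓞 L), fv v (φ z0) ≤ 1 →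
        max (fv v (φ (tt A))) 1 * fv v (N : L) ≤ 1) ∧
      ∀ w : InfinitePlace L, w (φ z0) ≤ 1 → max (w (φ (tt A))) 1 ≤ B := by
  classical
  obtain ⟨d, a, N, hN, ha, hz0⟩ := hz
  choose b hb1 hb using fun i => inf_bound _ (ha i)
  have hBs : 0 ≤ ∑ i, b i := Finset.sum_nonneg fun i _ => by linarith [hb1 i]
  refine ⟨N, 1 + ∑ i, b i, hN, by linarith, ?_⟩
  intro L _ _ φ
  have hφ : φ z0 = φ (tt A) ^ (d + 1) + ∑ i, φ (a i) * φ (tt A) ^ (i : ℕ) := by
    rw [hz0, map_add, map_pow, map_sum]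
    congr 1
    exact Finset.sum_congr rfl fun i _ => by rw [map_mul, map_pow]
  refine ⟨fun v hv => ?_, fun w hw => ?_⟩
  · have hN1 : fv v (N : L) ≤ 1 := fv_nat v _
    have hN0 : 0 ≤ fv v (N : L) := (fv v).nonneg _
    rcases le_or_gt (fv v (φ (tt A))) 1 with h | h
    · rw [max_eq_right h, one_mul]; exact hN1
    · rw [max_eq_left h.le]
      have e1 : (N : L) * φ (tt A) ^ (d + 1) = (N : L) * φ z0 -
          ∑ i, ((N : L) * φ (a i)) * φ (tt A) ^ (i : ℕ) := by
        rw [hφ, mul_add, Finset.mul_sum]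
        have : ∑ i, (N : L) * (φ (a i) * φ (tt A) ^ (i : ℕ)) =
            ∑ i, ((N : L) * φ (a i)) * φ (tt A) ^ (i : ℕ) :=
          Finset.sum_congr rfl fun i _ => by ring
        rw [this]
        ring
      have e2 : fv v ((N : L) * φ (tt A) ^ (d + 1)) ≤ fv v (φ (tt A)) ^ d := by
        rw [e1, sub_eq_add_neg]
        refine (fv_add v _ _).trans (max_le ?_ ?_)
        · rw [map_mul]
          have h1 : (1 : ℝ) ≤ fv v (φ (tt A)) ^ d := one_le_pow₀ h.le
          have h2 : fv v (N : L) * fv v (φ z0) ≤ 1 :=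
            mul_le_one₀ hN1 ((fv v).nonneg _) hv
          linarith
        · rw [map_neg_eq_map]
          refine fv_sum v _ _ (by positivity) fun i _ => ?_
          rw [map_mul, map_pow]
          have h1 : fv v ((N : L) * φ (a i)) ≤ 1 := by
            have h3 : (N : L) * φ (a i) = φ ((N : A) * a i) := by
              rw [map_mul, map_natCast]
            rw [h3]
            exact fin_bound _ (ha i) L φ v
          have h2 : fv v (φ (tt A)) ^ (i : ℕ) ≤ fv v (φ (tt A)) ^ d :=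
            pow_le_pow_right₀ h.le (by omega)
          have h4 : 0 ≤ fv v (φ (tt A)) ^ (i : ℕ) := by positivity
          calc fv v ((N : L) * φ (a i)) * fv v (φ (tt A)) ^ (i : ℕ) ≤
              1 * fv v (φ (tt A)) ^ (i : ℕ) := mul_le_mul_of_nonneg_right h1 h4
            _ ≤ _ := by rw [one_mul]; exact h2
      rw [map_mul, map_pow, pow_succ] at e2
      have h0 : 0 < fv v (φ (tt A)) ^ d := by positivity
      have e3 : (fv v (φ (tt A)) * fv v (N : L)) * fv v (φ (tt A)) ^ d ≤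
          1 * fv v (φ (tt A)) ^ d := by
        rw [one_mul]
        refine le_trans (le_of_eq ?_) e2
        ring
      exact le_of_mul_le_mul_right e3 h0
  · have hbi : ∀ i, w (φ (a i)) ≤ b i := by
      intro i
      have h2 := hb i L φ w
      rw [map_mul, map_natCast, map_mul, w_nat] at h2
      have h3 : (1 : ℝ) ≤ N := by exact_mod_cast Nat.one_le_iff_ne_zero.2 hN
      have h4 : 0 ≤ w (φ (a i)) := w.1.nonneg _
      nlinarith
    rcases le_or_gt (w (φ (tt A))) 1 with h | h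
    · rw [max_eq_right h]; linarith
    · rw [max_eq_left h.le]
      have e1 : φ (tt A) ^ (d + 1) = φ z0 + -∑ i, φ (a i) * φ (tt A) ^ (i : ℕ) := by
        rw [hφ]; ring
      have h0 : 0 < w (φ (tt A)) ^ d := by positivity
      have e2 : w (φ (tt A)) ^ (d + 1) ≤ (1 + ∑ i, b i) * w (φ (tt A)) ^ d := by
        rw [← map_pow, e1]
        refine (w_add w _ _).trans ?_
        have hneg : ∀ x : L, w (-x) = w x := fun x => w.1.map_neg x
        rw [hneg, add_mul, one_mul]
        refine add_le_add (hw.trans (one_le_pow₀ h.le)) ?_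
        refine (w_sum w _ _).trans ?_
        rw [Finset.sum_mul]
        refine Finset.sum_le_sum fun i _ => ?_
        rw [map_mul, map_pow]
        refine mul_le_mul (hbi i) (pow_le_pow_right₀ h.le (by omega)) (by positivity) ?_
        linarith [hb1 i]
      rw [pow_succ, mul_comm] at e2
      exact le_of_mul_le_mul_right e2 h0

theorem Q_bdd {A : Type} [CommRing A] [Algebra ℚ[X] A] [Module.Finite ℚ[X] A] (s : ℕ)
    (z : Fin (s + 1) → A) (hz : Mon (z 0)) (c : A) : Q z 0 c := by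
  obtain ⟨n', hn', hI⟩ := Pool.Agent.W989.AC.MULT.t A c
  obtain ⟨k, K', hK', H⟩ := Pool.Agent.W131.AC.t A _ hI
  obtain ⟨N, B, hN, hB1, hB⟩ := t_bdd hz
  refine ⟨n' * N ^ k, K' * B ^ k, mul_ne_zero hn' (pow_ne_zero _ hN),
    by nlinarith [one_le_pow₀ hB1 (n := k)], fun L _ _ φ μ h0 h1 => ⟨fun v hv => ?_, fun w hw => ?_⟩⟩
  · have e1 := (H L φ).1 v
    have e5 := (hB L φ).1 v ((hv 0).trans h1)
    have e6 : 0 ≤ fv v (N : L) := (fv v).nonneg _
    rw [pow_zero, Nat.cast_mul, Nat.cast_pow, map_mul, map_pow, ← mul_assoc, ← map_mul]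
    have e7 : φ c * (n' : L) = φ ((n' : A) * c) := by
      rw [map_mul, map_natCast, mul_comm]
    rw [e7]
    calc fv v (φ ((n' : A) * c)) * fv v (N : L) ^ k
        ≤ max (fv v (φ (tt A))) 1 ^ k * fv v (N : L) ^ k :=
          mul_le_mul_of_nonneg_right e1 (pow_nonneg e6 _)
      _ = (max (fv v (φ (tt A))) 1 * fv v (N : L)) ^ k := (mul_pow _ _ _).symm
      _ ≤ 1 := pow_le_one₀ (mul_nonneg (le_max_of_le_right zero_le_one) e6) e5
  · have e1 := (H L φ).2 w
    have e3 := (hB L φ).2 w ((hw 0).trans h1)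
    have e4 : w (φ ((n' : A) * c)) ≤ K' * B ^ k := by
      refine e1.trans (mul_le_mul_of_nonneg_left ?_ (by linarith))
      exact pow_le_pow_left₀ (le_max_of_le_right zero_le_one) e3 _
    rw [map_mul, map_natCast, map_mul, w_nat] at e4
    have e5 : (1 : ℝ) ≤ n' := by exact_mod_cast Nat.one_le_iff_ne_zero.2 hn'
    have e6 : 0 ≤ w (φ c) := w.1.nonneg _
    rw [pow_zero, mul_one]
    nlinarith

theorem locp {A : Type} [CommRing A] [Algebra ℚ[X] A] [Module.Finite ℚ[X] A] (s : ℕ)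
    (z : Fin (s + 1) → A) (hz : Mon (z 0)) (m : ℕ) :
    ∀ g ∈ Ideal.span (Set.range z) ^ m, Q z m g := by
  have hb : ∀ c : A, Q z 0 c := Q_bdd s z hz
  have hI : ∀ y ∈ Ideal.span (Set.range z), Q z 1 y := by
    intro y hy
    refine Submodule.span_induction ?_ (Q_zero 1) (fun x y _ _ hx hy => Q_add hx hy) ?_ hy
    · rintro _ ⟨i, rfl⟩
      exact Q_gen i
    · intro c y _ hy
      have := Q_mul (hb c) hy
      rw [zero_add] at this
      exact this
  induction m with
  | zero => intro g _; exact hb g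
  | succ m ih =>
    intro g hg
    rw [pow_succ] at hg
    refine Submodule.mul_induction_on hg (fun x hx y hy => ?_) (fun x y hx hy => Q_add hx hy)
    exact Q_mul (ih x hx) (hI y hy)

theorem nbp (A : Type) [CommRing A] [IsDedekindDomain A] [Algebra ℚ A] [Algebra ℚ[X] A]
    [IsScalarTower ℚ ℚ[X] A] [Module.Finite ℚ[X] A] [FaithfulSMul ℚ[X] A] (s : ℕ)
    (z : Fin (s + 1) → A) (hz : Mon (z 0)) (hz1 : z 0 ≠ 0) (ε : ℝ) (hε : 0 < ε) :
    ∃ (C : ℝ) (G : ℚ[X]), 0 ≤ C ∧ G ≠ 0 ∧
      ∀ (L : Type) [Field L] [NumberField L] (φ : A →+* L), aeval (φ (tt A)) G ≠ 0 →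
        φ (z 0) ≠ 0 →
        {v : HeightOneSpectrum (𝓞 L) | lamF z φ v ≠ 0}.Finite ∧
        (∑ᶠ v : HeightOneSpectrum (𝓞 L), lamF z φ v) +
          ∑ w : InfinitePlace L, (w.mult : ℝ) * lamI z φ w ≤
          ((Module.finrank ℚ (A ⧸ Ideal.span (Set.range z)) : ℝ) / Module.finrank ℚ[X] A + ε) *
            Real.log (Height.mulHeight₁ (φ (tt A))) + Module.finrank ℚ L * C := by
  classical
  have hEX := Pool.Agent.W976.AC.EX.t Pool.Agent.W398.AC.DIM.t
      Pool.Agent.W193.AC.FINQ.t Pool.Agent.W989.AC.MULT.t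
  have hH := Pool.Agent.W410.AC.t Pool.Agent.W131.AC.t
  have hS := Pool.Agent.W223.AC.SUMP.t
  have hNO := Pool.Agent.W460.AC.t
  obtain ⟨ω, hω, hex⟩ := hEX A
  have hN0 : 0 < Module.finrank ℚ[X] A := by
    have : Module.IsTorsionFree ℚ[X] A := by infer_instance
    exact Module.finrank_pos
  have hI : Ideal.span (Set.range z) ≠ ⊥ := by
    intro h
    rw [Ideal.span_eq_bot] at h
    exact hz1 (h (z 0) ⟨0, rfl⟩)
  set n := Module.finrank ℚ (A ⧸ Ideal.span (Set.range z)) with hn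
  obtain ⟨c, hc⟩ := hH A (Module.finrank ℚ[X] A) ω hω
  obtain ⟨m', hm'⟩ := exists_nat_gt ((c : ℝ) / ε)
  obtain ⟨m, hmd⟩ : ∃ m, m = m' + 1 := ⟨_, rfl⟩
  obtain ⟨D, hDd⟩ : ∃ D, D = m * n / Module.finrank ℚ[X] A := ⟨_, rfl⟩
  have hD : m * n < Module.finrank ℚ[X] A * (D + 1) := by
    rw [hDd]
    exact Nat.lt_mul_div_succ _ hN0
  obtain ⟨p, hp1, hp2, hp3⟩ := hex _ hI m D hD
  obtain ⟨C, hC0, hC⟩ := hc D p hp1
  obtain ⟨M, K, hM0, hK1, hM⟩ := locp s z hz m _ hp2
  obtain ⟨G, hG0, hG⟩ := hNO A _ hp3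
  have hK0 : 0 ≤ Real.log K := Real.log_nonneg hK1
  have hM1 : 0 ≤ Real.log (M : ℝ) := Real.log_natCast_nonneg M
  refine ⟨C + (Real.log K + Real.log M), G, by linarith, hG0, ?_⟩
  intro L _ _ φ hφ hz0
  have hne := hG L φ hφ
  have hm1 : 1 ≤ m := by omega
  obtain ⟨hf, h1⟩ := hS L _ M m K (fun v => lamF z φ v) (fun w => lamI z φ w) hne hM0 hm1 hK1
    (fun v => lamF_nonneg z φ v)
    (by
      intro v hv
      have h2 := sup_aux (fun i => fv v (φ (z i))) ((fv v).pos hz0) hv
      have h3 := (hM L φ (Real.exp (-(lamF z φ v))) (Real.exp_nonneg _) (by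
        rw [Real.exp_le_one_iff]
        linarith [lamF_nonneg z φ v])).1 v h2
      rw [← Real.exp_nat_mul] at h3
      have h4 : (m : ℝ) * -(lamF z φ v) = -(m * lamF z φ v) := by ring
      rw [h4] at h3
      exact h3)
    (fun w => lamI_nonneg z φ w)
    (by
      intro w hw
      have h2 := sup_aux (fun i => w (φ (z i))) ((InfinitePlace.pos_iff).mpr hz0) hw
      have h3 := (hM L φ (Real.exp (-(lamI z φ w))) (Real.exp_nonneg _) (by
        rw [Real.exp_le_one_iff]
        linarith [lamI_nonneg z φ w])).2 w h2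
      rw [← Real.exp_nat_mul] at h3
      have h4 : (m : ℝ) * -(lamI z φ w) = -(m * lamI z φ w) := by ring
      rw [h4] at h3
      exact h3)
  refine ⟨hf, ?_⟩
  have h2 := hC L φ
  have hm0 : (0 : ℝ) < m := by
    rw [hmd]; positivity
  have hh : 0 ≤ Real.log (Height.mulHeight₁ (φ (tt A))) :=
    Real.log_nonneg (Height.one_le_mulHeight₁ _)
  have hL0 : (0 : ℝ) ≤ Module.finrank ℚ L := Nat.cast_nonneg _
  have h3 : (D : ℝ) ≤ m * n / Module.finrank ℚ[X] A := by
    rw [hDd]
    refine Nat.cast_div_le.trans ?_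
    push_cast
    exact le_refl _
  have h4 : (c : ℝ) ≤ ε * m := by
    rw [div_lt_iff₀ hε] at hm'
    have : (m : ℝ) = m' + 1 := by rw [hmd]; push_cast; ring
    rw [this]
    nlinarith
  have h5 : (D : ℝ) + c ≤ m * ((n : ℝ) / Module.finrank ℚ[X] A + ε) := by
    have : (m : ℝ) * ((n : ℝ) / Module.finrank ℚ[X] A + ε) =
      m * n / Module.finrank ℚ[X] A + ε * m := by ring
    rw [this]
    linarith
  have h6 : ((D : ℝ) + c) * Real.log (Height.mulHeight₁ (φ (tt A))) ≤
      m * ((n : ℝ) / Module.finrank ℚ[X] A + ε) * Real.log (Height.mulHeight₁ (φ (tt A))) :=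
    mul_le_mul_of_nonneg_right h5 hh
  have hm1 : (1 : ℝ) ≤ m := by rw [hmd]; push_cast; linarith [Nat.cast_nonneg (α := ℝ) m']
  have h7 : (Module.finrank ℚ L : ℝ) * (C + (Real.log K + Real.log M)) ≤
      m * (Module.finrank ℚ L * (C + (Real.log K + Real.log M))) := by
    have : 0 ≤ (Module.finrank ℚ L : ℝ) * (C + (Real.log K + Real.log M)) := by positivity
    nlinarith
  refine le_of_mul_le_mul_left ?_ hm0
  rw [mul_add (m : ℝ) (((n : ℝ) / _ + ε) * _) _, ← mul_assoc]
  have h8 : (Module.finrank ℚ L : ℝ) * (C + (Real.log K + Real.log M)) =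
    Module.finrank ℚ L * C + Module.finrank ℚ L * (Real.log K + Real.log M) := by ring
  linarith

end Pool.Agent.V7H60.CC
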