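import Pool.Agent.N395.CV.KeyB
import Pool.Agent.V7H60.CC.NbpG

/-! Proximity functions on a cover: the version of `Pool.Agent.N395.CV.keyB` with proximity
functions. -/

set_option autoImplicit false

namespace Pool.Agent.V7H60.CC

open NumberField IsDedekindDomain Module Polynomial
open Pool.Agent.N753.DR
open Pool.Agent.W223.AC Pool.Agent.W223.CV
open Pool.Agent.N395.CV (nearG sum_le_cc)
open Pool.Agent.Y729.RV (aQ aQX tower1 finiteX faithfulX rankX dimE)
open Pool.Agent.Y728.AK.PX (exists_den)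

/-- a monic polynomial in the coordinate -/
theorem mon_of_monic (K A' : Type) [Field K] [NumberField K] [CommRing A'] [Algebra ℚ[X] A']
    [Algebra K A'] [Algebra K[X] A'] [IsScalarTower K K[X] A']
    (htt : tt A' = algebraMap K[X] A' X) (p : K[X]) (hp : p.Monic) (hp1 : 1 ≤ p.natDegree) :
    Mon (algebraMap K[X] A' p) := by
  classical
  obtain ⟨d, hd⟩ : ∃ d, p.natDegree = d + 1 := ⟨p.natDegree - 1, by omega⟩
  choose N hN0 hNI using fun i : Fin (d + 1) => exists_den K A' (p.coeff i)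
  refine ⟨d, fun i => algebraMap K A' (p.coeff i), ∏ i, N i,
    Finset.prod_ne_zero_iff.mpr fun i _ => hN0 i, ?_, ?_⟩
  · intro i
    have h1 : ((∏ j, N j : ℕ) : A') = (∏ j ∈ Finset.univ.erase i, N j : ℕ) * (N i : A') := by
      rw [← Nat.cast_mul, Finset.prod_erase_mul _ _ (Finset.mem_univ i)]
    rw [h1, mul_assoc]
    exact (isIntegral_natCast _).mul (hNI i)
  · have h1 := hp.as_sum
    rw [hd] at h1
    have h2 : algebraMap K[X] A' p =
        algebraMap K[X] A' (X ^ (d + 1) + ∑ i ∈ Finset.range (d + 1), C (p.coeff i) * X ^ i) :=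
      congrArg _ h1
    rw [h2, map_add, map_pow, map_sum, ← htt, Finset.sum_range]
    congr 1
    refine Finset.sum_congr rfl fun i _ => ?_
    show _ = algebraMap K A' (p.coeff i) * tt A' ^ (i : ℕ)
    rw [map_mul, map_pow, ← htt, IsScalarTower.algebraMap_apply K K[X] A', Polynomial.algebraMap_eq]

attribute [local instance] Polynomial.algebra

/-- **proximity functions on a cover** -/
theorem keyP (K A' : Type) [Field K] [NumberField K] [CommRing A'] [IsDedekindDomain A']
    [Algebra K A'] [Algebra K[X] A'] [IsScalarTower K K[X] A'] [Module.Finite K[X] A']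
    [FaithfulSMul K[X] A'] (q : ℕ) (u s : Fin q → ℕ) (g : ∀ j, Fin (u j) → A') (p : Fin q → K[X])
    (y : ∀ j, Fin (s j + 1) → A') (hp : ∀ j, (p j).Monic) (hp1 : ∀ j, 1 ≤ (p j).natDegree)
    (hy0 : ∀ j, y j 0 = algebraMap K[X] A' (p j))
    (hyr : ∀ j i, y j i ∈ (Ideal.span (Set.range (g j))).radical)
    (ε : ℝ) (hε : 0 < ε) :
    ∃ (T : ℕ) (C : ℝ) (G : ℚ[X]), T ≠ 0 ∧ 0 ≤ C ∧ G ≠ 0 ∧
      ∀ (L : Type) [Field L] [NumberField L] [Algebra K L] (P : A' →ₐ[K] L),
        aeval (P (algebraMap K[X] A' X)) G ≠ 0 → (∀ j, P (y j 0) ≠ 0) →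
        (∀ j, {v : HeightOneSpectrum (𝓞 L) | lamF (y j) (P : A' →+* L) v ≠ 0}.Finite) ∧
        ∀ S : Finset ℕ, (∀ p ∈ S, p.Prime) → ∀ W : Finset (HeightOneSpectrum (𝓞 L)),
          (∀ w ∈ W, (T : 𝓞 L) ∉ w.asIdeal ∧ w.valuation L (P (algebraMap K[X] A' X)) ≤ 1 ∧
            ∃ j, ∀ l, w.valuation L (P (g j l)) < 1) →
          ∑ w ∈ W, lN w +
            ∑ j, (∑ w : InfinitePlace L, (w.mult : ℝ) * lamI (y j) (P : A' →+* L) w +
              mS S (y j) (P : A' →+* L)) ≤
          ((∑ j, (finrank K (A' ⧸ Ideal.span (Set.range (y j))) : ℝ)) / finrank K[X] A' + ε) *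
            Height.logHeight₁ (P (algebraMap K[X] A' X)) +
              finrank ℚ L * (C + ∑ p ∈ S, Real.log p) := by
  classical
  letI iQ := aQ K A'
  letI iQX := aQX K A'
  have i1 : IsScalarTower ℚ ℚ[X] A' := tower1 K A'
  have i2 : Module.Finite ℚ[X] A' := finiteX K A'
  have i3 : FaithfulSMul ℚ[X] A' := faithfulX K A'
  have htt : tt A' = algebraMap K[X] A' X := by
    show algebraMap K[X] A' (Polynomial.mapRingHom (algebraMap ℚ K) X) = _
    rw [coe_mapRingHom, map_X]
  have hq0 : (0 : ℝ) < (q : ℝ) + 1 := by positivity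
  have hz1 : ∀ j, y j 0 ≠ 0 := by
    intro j h
    rw [hy0 j, map_eq_zero_iff _ (FaithfulSMul.algebraMap_injective K[X] A')] at h
    exact (hp j).ne_zero h
  have hNB' := fun j => nbp A' (s j) (y j)
    (by rw [hy0 j]; exact mon_of_monic K A' htt (p j) (hp j) (hp1 j)) (hz1 j) (ε / (q + 1))
    (by positivity)
  choose C₁ G₁ hC₁ hG₁ hNB'' using hNB'
  have hNE := fun j : Fin q => nearG Pool.Agent.W989.AC.MULT.t Pool.Agent.W597.AC.t A'
    (u j) (s j + 1) 1 (g j) (y j) (fun _ => 1) (fun i k => by rw [mul_one]; exact hyr j i)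
  choose M₂ hM₂ hNE' using hNE
  refine ⟨∏ j, M₂ j, ∑ j, C₁ j, ∏ j, G₁ j,
    Finset.prod_ne_zero_iff.mpr fun j _ => hM₂ j,
    Finset.sum_nonneg fun j _ => hC₁ j,
    Finset.prod_ne_zero_iff.mpr fun j _ => hG₁ j, ?_⟩
  intro L _ _ _ P hG hne
  set x := P (algebraMap K[X] A' X) with hx
  have hx' : (P : A' →+* L) (tt A') = x := by
    rw [htt]
    rfl
  have hGj : ∀ j, aeval x (G₁ j) ≠ 0 := by
    intro j
    rw [map_prod, Finset.prod_ne_zero_iff] at hG
    exact hG j (Finset.mem_univ j)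
  have hlam := fun j => hNB'' j L (P : A' →+* L) (by rw [hx']; exact hGj j) (hne j)
  refine ⟨fun j => (hlam j).1, fun S hS W hW => ?_⟩
  have hnf : ∀ j, {v : HeightOneSpectrum (𝓞 L) | NearP (y j) (P : A' →+* L) v}.Finite :=
    fun j => near_finite (y j) (P : A' →+* L) (hne j)
  have hfinU : {v : HeightOneSpectrum (𝓞 L) | ∃ j ∈ (Finset.univ : Finset (Fin q)),
      NearP (y j) (P : A' →+* L) v}.Finite := by
    refine (Set.finite_iUnion fun j => hnf j).subset ?_
    rintro v ⟨j, -, hv⟩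
    exact Set.mem_iUnion.2 ⟨j, hv⟩
  have h1 : ∑ w ∈ W, lN w ≤
      cc ∅ (fun v : HeightOneSpectrum (𝓞 L) => ∃ j ∈ (Finset.univ : Finset (Fin q)),
        NearP (y j) (P : A' →+* L) v) := by
    refine sum_le_cc ∅ hfinU W fun w hw => ⟨fun p hp => absurd hp (Finset.notMem_empty p), ?_⟩
    obtain ⟨hw1, hw2, j, hw3⟩ := hW w hw
    have hM2v : ((M₂ j : ℕ) : 𝓞 L) ∉ w.asIdeal :=
      not_mem_of_dvd (Finset.dvd_prod_of_mem M₂ (Finset.mem_univ j)) hw1
    rcases hNE' j L (P : A' →+* L) w hM2v (by rw [hx']; exact hw2) hw3 with h | h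
    · exact ⟨j, Finset.mem_univ j, by rw [hx']; exact hw2, h⟩
    · exact absurd (h 0) (by rw [map_one, map_one]; exact lt_irrefl _)
  have h2 := Pool.Agent.W223.AC.cc_outside (L := L) Pool.Agent.W803.AC.t S hS _ hfinU
  have h3 := Pool.Agent.W223.CV.cc_exists S Finset.univ
      (fun j (v : HeightOneSpectrum (𝓞 L)) => NearP (y j) (P : A' →+* L) v) hnf
  have hd : (Module.finrank ℚ K : ℝ) ≠ 0 := by
    have : 0 < Module.finrank ℚ K := Module.finrank_pos
    positivity
  have hrk : ∀ j, (Module.finrank ℚ (A' ⧸ Ideal.span (Set.range (y j))) : ℝ) /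
      Module.finrank ℚ[X] A' =
      (Module.finrank K (A' ⧸ Ideal.span (Set.range (y j))) : ℝ) / Module.finrank K[X] A' := by
    intro j
    have e1 : Module.finrank ℚ (A' ⧸ Ideal.span (Set.range (y j))) =
        Module.finrank ℚ K * Module.finrank K (A' ⧸ Ideal.span (Set.range (y j))) :=
      dimE K A' _
    have e2 : Module.finrank ℚ[X] A' = Module.finrank ℚ K * Module.finrank K[X] A' := rankX K A'
    rw [e1, e2]
    push_cast
    rw [mul_div_mul_left _ _ hd]
  have h5 : ∀ j, cc S (fun v : HeightOneSpectrum (𝓞 L) => NearP (y j) (P : A' →+* L) v) +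
      (∑ w : InfinitePlace L, (w.mult : ℝ) * lamI (y j) (P : A' →+* L) w +
        mS S (y j) (P : A' →+* L)) ≤
      ((Module.finrank K (A' ⧸ Ideal.span (Set.range (y j))) : ℝ) /
          Module.finrank K[X] A' + ε / (q + 1)) * Height.logHeight₁ x +
        Module.finrank ℚ L * C₁ j := by
    intro j
    obtain ⟨h6, h7⟩ := hlam j
    have h8 := split_prox (y j) (P : A' →+* L) S (hne j) h6
    rw [hx', hrk j, ← Height.logHeight₁_eq_log_mulHeight₁] at h7
    linarith
  have h6 := Finset.sum_le_sum fun j (_ : j ∈ Finset.univ) => h5 j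
  rw [Finset.sum_add_distrib] at h6
  have h7 : ∑ j, (((Module.finrank K (A' ⧸ Ideal.span (Set.range (y j))) : ℝ) /
          Module.finrank K[X] A' + ε / (q + 1)) * Height.logHeight₁ x +
        Module.finrank ℚ L * C₁ j) =
      ((∑ j, (Module.finrank K (A' ⧸ Ideal.span (Set.range (y j))) : ℝ)) /
        Module.finrank K[X] A' + q * (ε / (q + 1))) * Height.logHeight₁ x +
          Module.finrank ℚ L * ∑ j, C₁ j := by
    rw [Finset.sum_add_distrib, ← Finset.sum_mul, ← Finset.mul_sum, Finset.sum_add_distrib,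
      ← Finset.sum_div, Finset.sum_const, Finset.card_univ, Fintype.card_fin, nsmul_eq_mul]
  rw [h7] at h6
  have hh : 0 ≤ Height.logHeight₁ x := Height.zero_le_logHeight₁ x
  have h8 : (q : ℝ) * (ε / (q + 1)) ≤ ε := by
    rw [mul_div_assoc', div_le_iff₀ hq0]
    nlinarith
  have h9 := mul_le_mul_of_nonneg_right h8 hh
  rw [mul_add (Module.finrank ℚ L : ℝ)]
  linarith

end Pool.Agent.V7H60.CC
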